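import Mathlib

namespace Pool.Agent.Results.MP_df7fe8_co.NoMonotoneMap

/-- Locally chain-bounded: the chains inside each interval `[x, y]` have bounded length
(the length of a chain is its number of elements minus one). -/
def LocallyChainBounded (P : Type) [PartialOrder P] : Prop :=
  ∀ x y : P, x ≤ y → ∃ n : ℕ, ∀ C : Set P, IsChain (· ≤ ·) C → C ⊆ Set.Icc x y →
    C.encard ≤ n + 1

def N (S : Finset (ℕ → ℕ)) (y : ℕ) : ℕ := S.sup fun x => x y

theorem N_mono {S T : Finset (ℕ → ℕ)} (h : S ⊆ T) (y : ℕ) : N S y ≤ N T y := Finset.sup_mono h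

@[ext] structure L : Type where
  S : Finset (ℕ → ℕ)
  y : ℕ
  k : ℕ
  hk : k ≤ N S y

def le2 (y k y' k' : ℕ) : Prop := y < y' ∨ (y = y' ∧ k ≤ k')

open Classical in
noncomputable def rnd (S : Finset (ℕ → ℕ)) (y k : ℕ) : L :=
  if h : k ≤ N S y then ⟨S, y, k, h⟩ else ⟨S, y + 1, 0, Nat.zero_le _⟩

theorem rnd_S (S : Finset (ℕ → ℕ)) (y k : ℕ) : (rnd S y k).S = S := by
  unfold rnd; split_ifs <;> rfl

theorem rnd_ge (S : Finset (ℕ → ℕ)) (y k : ℕ) : le2 y k (rnd S y k).y (rnd S y k).k := by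
  unfold rnd le2; split_ifs <;> simp

theorem rnd_le (S : Finset (ℕ → ℕ)) (y k y' k' : ℕ) (h : le2 y k y' k') (h' : k' ≤ N S y') :
    le2 (rnd S y k).y (rnd S y k).k y' k' := by
  unfold rnd le2 at *
  split_ifs with h1
  · exact h
  · simp only
    rcases h with h | ⟨rfl, h⟩ <;> omega

open Classical in
noncomputable instance : Lattice L where
  le p q := q.S ⊆ p.S ∧ le2 p.y p.k q.y q.k
  le_refl p := ⟨subset_rfl, Or.inr ⟨rfl, le_rfl⟩⟩
  le_trans p q r h1 h2 := ⟨h2.1.trans h1.1, by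
    have a := h1.2; have b := h2.2; unfold le2 at *; omega⟩
  le_antisymm p q h1 h2 := by
    have a := h1.2; have b := h2.2; unfold le2 at *
    exact L.ext (subset_antisymm h2.1 h1.1) (by omega) (by omega)
  sup p q := if le2 p.y p.k q.y q.k then rnd (p.S ∩ q.S) q.y q.k else rnd (p.S ∩ q.S) p.y p.k
  le_sup_left p q := by
    split_ifs with h
    · refine ⟨by rw [rnd_S]; exact Finset.inter_subset_left, ?_⟩
      have := rnd_ge (p.S ∩ q.S) q.y q.k
      unfold le2 at *; omega
    · exact ⟨by rw [rnd_S]; exact Finset.inter_subset_left, rnd_ge _ _ _⟩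
  le_sup_right p q := by
    split_ifs with h
    · exact ⟨by rw [rnd_S]; exact Finset.inter_subset_right, rnd_ge _ _ _⟩
    · refine ⟨by rw [rnd_S]; exact Finset.inter_subset_right, ?_⟩
      have := rnd_ge (p.S ∩ q.S) p.y p.k
      unfold le2 at *; omega
  sup_le p q r h1 h2 := by
    have hs : r.S ⊆ p.S ∩ q.S := Finset.subset_inter h1.1 h2.1
    split_ifs with h
    · exact ⟨by rw [rnd_S]; exact hs, rnd_le _ _ _ _ _ h2.2 (r.hk.trans (N_mono hs _))⟩
    · exact ⟨by rw [rnd_S]; exact hs, rnd_le _ _ _ _ _ h1.2 (r.hk.trans (N_mono hs _))⟩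
  inf p q := if le2 p.y p.k q.y q.k then
      ⟨p.S ∪ q.S, p.y, p.k, p.hk.trans (N_mono Finset.subset_union_left _)⟩
    else ⟨p.S ∪ q.S, q.y, q.k, q.hk.trans (N_mono Finset.subset_union_right _)⟩
  inf_le_left p q := by
    split_ifs with h
    · exact ⟨Finset.subset_union_left, Or.inr ⟨rfl, le_rfl⟩⟩
    · exact ⟨Finset.subset_union_left, by unfold le2 at *; simp only; omega⟩
  inf_le_right p q := by
    split_ifs with h
    · exact ⟨Finset.subset_union_right, h⟩
    · exact ⟨Finset.subset_union_right, Or.inr ⟨rfl, le_rfl⟩⟩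
  le_inf p q r h1 h2 := by
    split_ifs with h
    · exact ⟨Finset.union_subset h1.1 h2.1, h1.2⟩
    · exact ⟨Finset.union_subset h1.1 h2.1, h2.2⟩

theorem le_def (p q : L) : p ≤ q ↔ q.S ⊆ p.S ∧ le2 p.y p.k q.y q.k := Iff.rfl

theorem icc_finite (p q : L) : (Set.Icc p q).Finite := by
  have hfin : ((p.S.powerset ×ˢ Finset.range (q.y + 1) ×ˢ
      Finset.range ((Finset.range (q.y + 1)).sup (N p.S) + 1) :
        Finset (Finset (ℕ → ℕ) × ℕ × ℕ)) : Set (Finset (ℕ → ℕ) × ℕ × ℕ)).Finite :=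
    Finset.finite_toSet _
  refine (hfin.preimage (f := fun r : L => (r.S, r.y, r.k)) ?_).subset ?_
  · intro a _ b _ h
    simp only [Prod.mk.injEq] at h
    exact L.ext h.1 h.2.1 h.2.2
  · rintro r ⟨h1, h2⟩
    have hy : r.y < q.y + 1 := by have := h2.2; unfold le2 at this; omega
    have hk : r.k ≤ (Finset.range (q.y + 1)).sup (N p.S) :=
      (r.hk.trans (N_mono h1.1 _)).trans (Finset.le_sup (f := N p.S) (Finset.mem_range.2 hy))
    simp only [Set.mem_preimage, Finset.mem_coe, Finset.mem_product, Finset.mem_powerset,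
      Finset.mem_range]
    exact ⟨h1.1, hy, by omega⟩

theorem result : ∃ (P : Type) (_ : Lattice P), LocallyChainBounded P ∧
    ¬ ∃ f : P → ℤ, StrictMono f := by
  refine ⟨L, inferInstance, fun p q _ => ⟨(Set.Icc p q).ncard, fun C _ hC => ?_⟩, ?_⟩
  · rw [(icc_finite p q).cast_ncard_eq]
    exact (Set.encard_le_encard hC).trans le_self_add
  · rintro ⟨f, hf⟩
    let b : ℕ → L := fun y => ⟨∅, y, 0, Nat.zero_le _⟩
    let x : ℕ → ℕ := fun y => (f (b (y + 1))).natAbs + y
    have hN : ∀ y, N {x} y = x y := fun y => Finset.sup_singleton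
    let a : L := ⟨{x}, 0, 0, Nat.zero_le _⟩
    have step : ∀ y k (hk : k ≤ N {x} y), f a + k ≤ f ⟨{x}, y, k, hk⟩ := by
      intro y k
      induction k with
      | zero =>
        intro hk
        have : a ≤ ⟨{x}, y, 0, hk⟩ := ⟨subset_rfl, by unfold le2; simp only [a]; omega⟩
        simpa using hf.monotone this
      | succ k ih =>
        intro hk
        have h1 := ih (by omega)
        have h2 : (⟨{x}, y, k, by omega⟩ : L) < ⟨{x}, y, k + 1, hk⟩ :=
          lt_of_le_of_ne ⟨subset_rfl, Or.inr ⟨rfl, by simp⟩⟩ (fun h => by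
            have := congrArg L.k h
            simp at this)
        have := hf h2
        push_cast
        omega
    have key : ∀ y, f a + x y ≤ f (b (y + 1)) := by
      intro y
      refine (step y (x y) (hN y).ge).trans (hf.monotone ⟨Finset.empty_subset _, Or.inl ?_⟩)
      simp [b]
    have := key ((f a).natAbs + 1)
    simp only [x] at this
    omega

end Pool.Agent.Results.MP_df7fe8_co.NoMonotoneMap
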